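import Mathlib
import Pool.Agent.Lib.MP_0c59fa_nt.Telescope

set_option autoImplicit false

namespace Pool.Agent.Results.MP_0c59fa_nt.ToParity

open PowerSeries

/-!
# Parity of the coefficients of `T_o(q)`

Modulo 2 one has
`q T_o(q) = ∑_{k ≥ 0} q^{k(2k+1)} + (q^2;q^2)_∞ ∑_{k ≥ 0} (q^{k(6k+1)} + q^{(2k+1)(3k+1)})`,
which is proved here through a telescoping identity over a field of characteristic 2
(file `Telescope`). An odd coefficient of `q^{n+1}` on the right forces `8n+9` to be a square or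
`3(8n+9)` to be of the form `x^2+2y^2`.
-/

/-- The `m`-th summand `q^{2m} (-q;q)_{2m} / (q;q^2)_{m+1}` of `T_o(q)`, in `ℤ[[q]]`;
`invOfUnit A 1` is the inverse of a power series `A` with constant coefficient 1. -/
noncomputable def toTerm (m : ℕ) : PowerSeries ℤ :=
  X ^ (2 * m) * (∏ k ∈ Finset.range (2 * m), (1 + X ^ (k + 1))) *
    invOfUnit (∏ k ∈ Finset.range (m + 1), (1 - X ^ (2 * k + 1))) 1

/-- The coefficient `t_o(n)` of `q^n` in `T_o(q) = ∑_{m ≥ 0} toTerm m`
(the summands with `m > n` are divisible by `q^{2m}` and do not contribute). -/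
noncomputable def tO (n : ℕ) : ℤ := ∑ m ∈ Finset.range (n + 1), coeff n (toTerm m)

abbrev P := PowerSeries (ZMod 2)

noncomputable def red : PowerSeries ℤ →+* P := PowerSeries.map (Int.castRingHom (ZMod 2))

/-- fraction field of `𝔽₂[[q]]` -/
abbrev K := FractionRing P

noncomputable abbrev io : P →+* K := algebraMap P K

lemma io_inj : Function.Injective io := IsFractionRing.injective P K

open Pool.Agent.Lib.MP_0c59fa_nt

noncomputable abbrev q : K := io X

instance : CharP P 2 :=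
  charP_of_injective_ringHom (f := (PowerSeries.C (R := ZMod 2))) PowerSeries.C_injective 2

instance : CharP K 2 := by
  exact charP_of_injective_ringHom io_inj 2

lemma hq : q ≠ 0 := by
  rw [Ne, map_eq_zero_iff io io_inj]
  exact X_ne_zero

lemma unit_aux (j : ℕ) (hj : 0 < j) : (1 + X ^ j : P) * invOfUnit (1 + X ^ j) 1 = 1 := by
  apply mul_invOfUnit
  simp [hj.ne']

lemma w_nat (j : ℕ) : w q (j : ℤ) = io (1 + X ^ j) := by
  simp [w]

lemma hw_nat (j : ℕ) (hj : 0 < j) : w q (j : ℤ) ≠ 0 := by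
  rw [w_nat]
  intro h
  have := congrArg io (unit_aux j hj)
  rw [map_mul, h, zero_mul, map_one] at this
  exact zero_ne_one this

lemma hw (j : ℤ) (hj : j ≠ 0) : w q j ≠ 0 := by
  rcases lt_trichotomy j 0 with h | h | h
  · obtain ⟨m, hm⟩ := Int.eq_ofNat_of_zero_le (show 0 ≤ -j by omega)
    have : w q j = q ^ j * w q (-j) := by
      have := w_neg q hq (-j)
      rwa [neg_neg] at this
    rw [this]
    refine mul_ne_zero (zpow_ne_zero _ hq) ?_
    rw [hm]
    exact hw_nat m (by omega)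
  · exact absurd h hj
  · obtain ⟨m, hm⟩ := Int.eq_ofNat_of_zero_le h.le
    rw [hm]
    exact hw_nat m (by omega)

noncomputable def O : Subring K := io.range

lemma hqO : q ∈ O := ⟨X, rfl⟩

lemma w_inv_nat (j : ℕ) (hj : 0 < j) : (w q (j : ℤ))⁻¹ = io (invOfUnit (1 + X ^ j) 1) := by
  rw [inv_eq_iff_eq_inv, eq_comm, inv_eq_iff_eq_inv, eq_comm]
  apply inv_eq_of_mul_eq_one_right
  rw [w_nat, ← map_mul, unit_aux j hj, map_one]

lemma hwO (j : ℕ) (hj : 0 < j) : (w q (j : ℤ))⁻¹ ∈ O := ⟨_, (w_inv_nat j hj).symm⟩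

/-- finite product `∏_{i=1}^n (1+X^{2i})` -/
noncomputable def EP (n : ℕ) : P := ∏ i ∈ Finset.range n, (1 + X ^ (2 * (i + 1)))

lemma io_EP (n : ℕ) : io (EP n) = E q n := by
  simp [EP, E, map_prod]

lemma prod_split (m : ℕ) : ∏ k ∈ Finset.range (2 * m), (1 + X ^ (k + 1) : P) =
    (∏ k ∈ Finset.range m, (1 + X ^ (2 * k + 1))) * EP m := by
  induction m with
  | zero => simp [EP]
  | succ m ih =>
    rw [show 2 * (m + 1) = 2 * m + 1 + 1 by ring, Finset.prod_range_succ, Finset.prod_range_succ, ih,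
      Finset.prod_range_succ, EP, EP, Finset.prod_range_succ]
    ring

lemma io_term (m : ℕ) : io (X * red (toTerm m)) =
    q ^ (2 * m + 1) * E q m * (w q (2 * (m : ℤ) + 1))⁻¹ := by
  have h1 : (∏ k ∈ Finset.range (m + 1), (1 - X ^ (2 * k + 1)) : PowerSeries ℤ) *
      invOfUnit (∏ k ∈ Finset.range (m + 1), (1 - X ^ (2 * k + 1))) 1 = 1 := by
    apply mul_invOfUnit
    rw [map_prod]
    simp
  have h2 := congrArg red h1
  rw [map_mul, map_one, map_prod] at h2
  have h3 : ∀ k, red (1 - X ^ (2 * k + 1)) = 1 + X ^ (2 * k + 1) := by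
    intro k
    simp only [red, map_sub, map_one, map_pow, PowerSeries.map_X]
    exact CharTwo.sub_eq_add _ _
  simp_rw [h3] at h2
  have h4 := congrArg io h2
  rw [map_mul, map_one, Finset.prod_range_succ, map_mul] at h4
  have h5 : io (1 + X ^ (2 * m + 1)) = w q (2 * (m : ℤ) + 1) := by
    rw [← w_nat]; push_cast; rfl
  rw [h5] at h4
  have h6 : io (red (invOfUnit (∏ k ∈ Finset.range (m + 1), (1 - X ^ (2 * k + 1))) 1)) *
     io (∏ k ∈ Finset.range m, (1 + X ^ (2 * k + 1))) = (w q (2 * (m : ℤ) + 1))⁻¹ := by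
    rw [eq_comm]
    apply inv_eq_of_mul_eq_one_right
    linear_combination h4
  have h7 : red (toTerm m) = X ^ (2 * m) * (∏ k ∈ Finset.range (2 * m), (1 + X ^ (k + 1))) *
      red (invOfUnit (∏ k ∈ Finset.range (m + 1), (1 - X ^ (2 * k + 1))) 1) := by
    unfold toTerm
    rw [map_mul, map_mul, map_pow, map_prod]
    congr 2
    · simp [red]
    · refine Finset.prod_congr rfl fun k _ => ?_
      simp [red]
  rw [h7, prod_split, map_mul, map_mul, map_mul, map_mul, io_EP, map_pow, pow_succ]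
  linear_combination (q ^ (2 * m) * q * E q m) * h6

theorem key_congr (D N : ℕ) (hN : 5 * D + 1 ≤ 2 * N) :
    ∃ g : P, ∑ m ∈ Finset.range N, X * red (toTerm m) =
      ∑ k ∈ Finset.range D, X ^ (2 * k ^ 2 + k) +
      EP N * ∑ k ∈ Finset.range D, X ^ (6 * k ^ 2 + k) * (1 + X ^ (4 * k + 1)) + X ^ D * g := by
  obtain ⟨z, ⟨g, hg⟩, h⟩ := congr_field q hq hw O hqO hwO D N hN
  refine ⟨g, ?_⟩
  apply io_inj
  rw [map_sum]
  simp_rw [io_term]
  rw [h, ← hg]
  simp only [map_add, map_sum, map_mul, map_pow, io_EP, map_one]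


lemma coeff_mul_X_pow_of_lt (f : P) (d i : ℕ) (h : i < d) : coeff i (X ^ d * f) = 0 := by
  rw [coeff_X_pow_mul', if_neg (by omega)]

lemma coeff_term_of_lt (n m : ℕ) (h : n < 2 * m) : coeff n (toTerm m) = 0 := by
  unfold toTerm
  rw [mul_assoc, coeff_X_pow_mul', if_neg (by omega)]

lemma lhs_coeff (n N : ℕ) (hN : n + 1 ≤ N) :
    coeff (n + 1) (∑ m ∈ Finset.range N, X * red (toTerm m)) = ((tO n : ℤ) : ZMod 2) := by
  rw [map_sum]
  have h1 : ∀ m, coeff (n + 1) (X * red (toTerm m)) = ((coeff n (toTerm m) : ℤ) : ZMod 2) := by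
    intro m
    rw [coeff_succ_X_mul]
    simp [red]
  simp_rw [h1]
  unfold tO
  rw [Int.cast_sum]
  symm
  apply Finset.sum_subset
  · intro i hi
    simp only [Finset.mem_range] at hi ⊢
    omega
  · intro i hi hi'
    simp only [Finset.mem_range] at hi hi'
    rw [coeff_term_of_lt n i (by omega)]; simp

/-- low-order coefficients of `EP N` are supported on `j` with `12 j + 1` a square -/
lemma EP_coeff (B : ℕ) : ∃ N0 : ℕ, ∀ N, N0 ≤ N → ∀ j, j ≤ B → coeff j (EP N) ≠ 0 →
    ∃ y : ℤ, 12 * (j : ℤ) + 1 = y ^ 2 := by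
  have h := fun j => coeff_prod_one_sub_X_pow_eventually_eq (ZMod 2) j
  have h' : ∀ᶠ s : Finset ℕ in Filter.atTop, ∀ j ∈ Finset.range (B + 1),
      coeff j (∏ n ∈ s, (1 - X ^ (n + 1) : P)) = coeff j (pentagonalSeries (ZMod 2)) := by
    rw [Finset.eventually_all]
    intro j _
    exact h j
  obtain ⟨s0, hs0⟩ := Filter.eventually_atTop.mp h'
  obtain ⟨N0, hN0⟩ := s0.exists_nat_subset_range
  refine ⟨N0, fun N hN j hj hne => ?_⟩
  have hs := hs0 (Finset.range N) (hN0.trans (Finset.range_mono hN))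
  -- polynomial version
  have e1 : EP N = ((Polynomial.expand (ZMod 2) 2 (∏ i ∈ Finset.range N, (1 + Polynomial.X ^ (i + 1)))
      : Polynomial (ZMod 2)) : P) := by
    rw [map_prod, EP]
    rw [← Polynomial.coeToPowerSeries.ringHom_apply, map_prod]
    refine Finset.prod_congr rfl fun i _ => ?_
    simp [Polynomial.expand_X, ← pow_mul]
  have e2 : (∏ n ∈ Finset.range N, (1 - X ^ (n + 1) : P)) =
      ((∏ i ∈ Finset.range N, (1 + Polynomial.X ^ (i + 1)) : Polynomial (ZMod 2)) : P) := by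
    rw [← Polynomial.coeToPowerSeries.ringHom_apply, map_prod]
    refine Finset.prod_congr rfl fun i _ => ?_
    rw [CharTwo.sub_eq_add]
    simp
  rw [e1, Polynomial.coeff_coe, Polynomial.coeff_expand (by norm_num)] at hne
  by_cases hd : 2 ∣ j
  · rw [if_pos hd] at hne
    obtain ⟨i, rfl⟩ := hd
    rw [Nat.mul_div_cancel_left _ (by norm_num)] at hne
    have h3 := hs i (by simp; omega)
    rw [e2, Polynomial.coeff_coe] at h3
    rw [h3] at hne
    rw [Ne, coeff_pentagonalSeries_eq_zero_iff, not_not] at hne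
    obtain ⟨k, hk⟩ := hne
    refine ⟨6 * k - 1, ?_⟩
    have := two_mul_natCast_pentagonal k
    rw [hk] at this
    push_cast
    linear_combination 12 * this
  · rw [if_neg hd] at hne
    exact absurd rfl hne

lemma rep_of_three_mul (m x y : ℤ) (h : 3 * m = x ^ 2 + 2 * y ^ 2) :
    ∃ u v : ℤ, m = u ^ 2 + 2 * v ^ 2 := by
  have h1 : (3 : ℤ) ∣ (x - y) * (x + y) := ⟨m - y ^ 2, by linear_combination -h⟩
  rcases (Int.prime_three.dvd_mul).mp h1 with ⟨t, ht⟩ | ⟨t, ht⟩
  · refine ⟨y + t, t, ?_⟩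
    have hx : x = y + 3 * t := by linarith
    subst hx
    have : 3 * m = 3 * ((y + t) ^ 2 + 2 * t ^ 2) := by linear_combination h
    linarith
  · refine ⟨t - y, t, ?_⟩
    have hx : x = 3 * t - y := by linarith
    subst hx
    have : 3 * m = 3 * ((t - y) ^ 2 + 2 * t ^ 2) := by linear_combination h
    linarith

/-- **Parity of the coefficients of `T_o(q)`.** For every `n ≥ 0` such that `8n+9` is not of the
form `x^2+2y^2` with integers `x, y`, the coefficient `t_o(n)` is even. -/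
theorem result (n : ℕ) (hn : ¬ ∃ x y : ℤ, (8 * n + 9 : ℤ) = x ^ 2 + 2 * y ^ 2) :
    Even (tO n) := by
  by_contra hodd
  have hne : ((tO n : ℤ) : ZMod 2) ≠ 0 := by
    intro h
    apply hodd
    rw [ZMod.intCast_zmod_eq_zero_iff_dvd] at h
    exact even_iff_two_dvd.mpr (by exact_mod_cast h)
  obtain ⟨N0, hN0⟩ := EP_coeff (n + 1)
  obtain ⟨N, hNdef⟩ : ∃ N, N = N0 + 5 * (n + 2) + 1 := ⟨_, rfl⟩
  obtain ⟨g, hg⟩ := key_congr (n + 2) N (by omega)
  have hc := congrArg (coeff (n + 1)) hg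
  rw [lhs_coeff n N (by omega)] at hc
  rw [hc] at hne
  have e0 : coeff (n + 1) (X ^ (n + 2) * g) = 0 := coeff_mul_X_pow_of_lt g _ _ (by omega)
  rw [map_add, map_add, e0, add_zero] at hne
  have hor : coeff (n + 1) (∑ k ∈ Finset.range (n + 2), X ^ (2 * k ^ 2 + k) : P) ≠ 0 ∨
      coeff (n + 1) (EP N * ∑ k ∈ Finset.range (n + 2),
        X ^ (6 * k ^ 2 + k) * (1 + X ^ (4 * k + 1))) ≠ 0 := by
    by_contra hcon
    push Not at hcon
    exact hne (by rw [hcon.1, hcon.2, add_zero])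
  apply hn
  rcases hor with h | h
  · rw [map_sum] at h
    obtain ⟨k, -, hk⟩ := Finset.exists_ne_zero_of_sum_ne_zero h
    rw [coeff_X_pow] at hk
    have hk' : n + 1 = 2 * k ^ 2 + k := by
      by_contra hcon
      rw [if_neg hcon] at hk
      exact hk rfl
    refine ⟨4 * k + 1, 0, ?_⟩
    have : (n : ℤ) + 1 = 2 * (k : ℤ) ^ 2 + k := by exact_mod_cast hk'
    linear_combination 8 * this
  · rw [Finset.mul_sum, map_sum] at h
    obtain ⟨k, -, hk⟩ := Finset.exists_ne_zero_of_sum_ne_zero h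
    have e1 : EP N * (X ^ (6 * k ^ 2 + k) * (1 + X ^ (4 * k + 1))) =
        X ^ (6 * k ^ 2 + k) * EP N + X ^ (6 * k ^ 2 + 5 * k + 1) * EP N := by ring
    rw [e1, map_add, coeff_X_pow_mul', coeff_X_pow_mul'] at hk
    have hor2 : (6 * k ^ 2 + k ≤ n + 1 ∧ coeff (n + 1 - (6 * k ^ 2 + k)) (EP N) ≠ 0) ∨
        (6 * k ^ 2 + 5 * k + 1 ≤ n + 1 ∧ coeff (n + 1 - (6 * k ^ 2 + 5 * k + 1)) (EP N) ≠ 0) := by
      by_contra hcon
      push Not at hcon
      apply hk
      have a1 : (if 6 * k ^ 2 + k ≤ n + 1 then coeff (n + 1 - (6 * k ^ 2 + k)) (EP N) else 0) = 0 := by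
        split_ifs with hh
        · exact hcon.1 hh
        · rfl
      have a2 : (if 6 * k ^ 2 + 5 * k + 1 ≤ n + 1 then
          coeff (n + 1 - (6 * k ^ 2 + 5 * k + 1)) (EP N) else 0) = 0 := by
        split_ifs with hh
        · exact hcon.2 hh
        · rfl
      rw [a1, a2, add_zero]
    rcases hor2 with ⟨h1, h2⟩ | ⟨h1, h2⟩
    · obtain ⟨j, hj⟩ := Nat.exists_eq_add_of_le h1
      rw [hj, Nat.add_sub_cancel_left] at h2
      obtain ⟨y, hy⟩ := hN0 N (by omega) j (by omega) h2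
      apply rep_of_three_mul _ (12 * k + 1) y
      have : (n : ℤ) + 1 = 6 * (k : ℤ) ^ 2 + k + j := by exact_mod_cast hj
      linear_combination 24 * this + 2 * hy
    · obtain ⟨j, hj⟩ := Nat.exists_eq_add_of_le h1
      rw [hj, Nat.add_sub_cancel_left] at h2
      obtain ⟨y, hy⟩ := hN0 N (by omega) j (by omega) h2
      apply rep_of_three_mul _ (12 * k + 5) y
      have : (n : ℤ) + 1 = 6 * (k : ℤ) ^ 2 + 5 * k + 1 + j := by exact_mod_cast hj
      linear_combination 24 * this + 2 * hy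

end Pool.Agent.Results.MP_0c59fa_nt.ToParity
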